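import Pool.Agent.Lib.H54W.W2

set_option autoImplicit false

/-!
H54W: regularity of the special forms and of the variables.
-/

open MvPolynomial

namespace Pool.Agent.H54W

open Pool.Agent.H89T Pool.Agent.H67T Pool.Agent.H53U Pool.Agent.H53V

variable {n c k : ℕ} {d : Fin c → ℕ} {α : Fin c → Option (Fin n) → ℂ}

theorem w2_vb_ne (b : Option (Fin n)) (j : Fin c) : H80W.vb n c b ≠ H80W.vc n c j := by
  unfold H80W.vb H80W.vc
  intro h
  cases b with
  | none => exact absurd h (by simp)
  | some b =>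
    have h3 := congrArg (fun o : Option (Fin (n + c)) => o.elim 0 fun a => (a : ℕ)) h
    simp at h3
    omega

theorem w2_vc_ne {i j : Fin c} (hij : i ≠ j) : H80W.vc n c i ≠ H80W.vc n c j := by
  unfold H80W.vc
  intro h
  have h3 := congrArg (fun o : Option (Fin (n + c)) => o.elim 0 fun a => (a : ℕ)) h
  simp at h3
  exact hij (Fin.ext (by omega))

theorem w2_vb_inj : Function.Injective (H80W.vb n c) :=
  Option.map_injective (Fin.castAdd_injective n c)

theorem w2_Fx_nv {i j : Fin c} (h : i ≠ j) :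
    ∃ f' : MvPolynomial {b // b ≠ H80W.vc n c j} ℂ, H80W.Fx n c d α i = rename Subtype.val f' := by
  refine ⟨X ⟨H80W.vc n c i, w2_vc_ne h⟩ ^ d i +
    ∑ b, C (α i b) * X ⟨H80W.vb n c b, w2_vb_ne b j⟩ ^ d i, ?_⟩
  unfold H80W.Fx
  rw [map_add, map_pow, rename_X, map_sum]
  congr 1
  refine Finset.sum_congr rfl fun b _ => ?_
  rw [map_mul, rename_C, map_pow, rename_X]

theorem w2_Fx_monic (j : Fin c) (hd : 1 ≤ d j) :
    (psi (H80W.vc n c j) (H80W.Fx n c d α j)).Monic := by
  have h1 : psi (H80W.vc n c j) (H80W.Fx n c d α j) = Polynomial.X ^ d j +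
      Polynomial.C (∑ b, C (α j b) * X ⟨H80W.vb n c b, w2_vb_ne b j⟩ ^ d j) := by
    unfold H80W.Fx
    rw [map_add, map_pow, psi_v]
    congr 1
    have h2 : ∑ b, C (α j b) * X (H80W.vb n c b) ^ d j =
        rename Subtype.val (∑ b, C (α j b) * X ⟨H80W.vb n c b, w2_vb_ne b j⟩ ^ d j :
          MvPolynomial {b // b ≠ H80W.vc n c j} ℂ) := by
      rw [map_sum]
      refine Finset.sum_congr rfl fun b _ => ?_
      rw [map_mul, rename_C, map_pow, rename_X]
    rw [h2, psi_rename]
  rw [h1]
  exact Polynomial.monic_X_pow_add_C _ (by omega)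

theorem w2_S (j : Fin c) (r : ℕ) (hr : r ≤ (j : ℕ)) :
    ∀ f ∈ H80W.Fx n c d α '' {i | (i : ℕ) < r},
      ∃ f' : MvPolynomial {b // b ≠ H80W.vc n c j} ℂ, f = rename Subtype.val f' := by
  rintro _ ⟨i, hi, rfl⟩
  have hi' : (i : ℕ) < r := hi
  refine w2_Fx_nv fun h => ?_
  rw [h] at hi'
  omega

/-- The special forms are a regular sequence. -/
theorem Fx_reg (hd : ∀ j, 1 ≤ d j) (j : Fin c) {x : MvPolynomial (Option (Fin (n + c))) ℂ}
    (hx : H80W.Fx n c d α j * x ∈ Ideal.span (H80W.Fx n c d α '' {i | (i : ℕ) < (j : ℕ)})) :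
    x ∈ Ideal.span (H80W.Fx n c d α '' {i | (i : ℕ) < (j : ℕ)}) := by
  classical
  exact w2_reg (H80W.vc n c j) _ (w2_S j _ le_rfl) (w2_Fx_monic j (hd j)) hx

theorem g_reg (hd : ∀ j, 1 ≤ d j) {g : MvPolynomial (Option (Fin n)) ℂ} (hg : g ≠ 0) (r : ℕ)
    (hr : r ≤ c) : ∀ x : MvPolynomial (Option (Fin (n + c))) ℂ,
    rename (H80W.vb n c) g * x ∈ Ideal.span (H80W.Fx n c d α '' {i | (i : ℕ) < r}) →
      x ∈ Ideal.span (H80W.Fx n c d α '' {i | (i : ℕ) < r}) := by
  classical
  induction r with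
  | zero =>
    intro x hx
    have h0 : {i : Fin c | (i : ℕ) < 0} = ∅ := by
      ext i
      simp
    rw [h0, Set.image_empty, Ideal.span_empty, Ideal.mem_bot] at hx ⊢
    refine (mul_eq_zero.1 hx).resolve_left fun h => hg ?_
    exact rename_injective _ w2_vb_inj (by rw [h, map_zero])
  | succ r ih =>
    intro x hx
    obtain ⟨j, hj⟩ : ∃ j : Fin c, (j : ℕ) = r := ⟨⟨r, hr⟩, rfl⟩
    have h1 : {i : Fin c | (i : ℕ) < r + 1} = {i : Fin c | (i : ℕ) < r} ∪ {j} := by
      ext i
      simp only [Set.mem_union, Set.mem_setOf_eq, Set.mem_singleton_iff]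
      constructor
      · intro h
        by_cases h2 : (i : ℕ) < r
        · exact Or.inl h2
        · exact Or.inr (Fin.ext (by omega))
      · rintro (h | h)
        · omega
        · rw [h]
          omega
    rw [h1, Set.image_union, Set.image_singleton] at hx ⊢
    have h2 : rename (H80W.vb n c) g = rename Subtype.val
        (rename (fun b => (⟨H80W.vb n c b, w2_vb_ne b j⟩ : {b // b ≠ H80W.vc n c j})) g) := by
      rw [rename_rename]
      rfl
    rw [h2] at hx
    refine w2_reg2 (H80W.vc n c j) _ (w2_S j r (by omega)) (w2_Fx_monic j (hd j)) (fun a ha => ?_) hx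
    rw [← h2] at ha
    exact ih (by omega) a ha

theorem w2_all : H80W.Fx n c d α '' {i | (i : ℕ) < c} = Set.range (H80W.Fx n c d α) := by
  rw [← Set.image_univ]
  congr 1
  ext j
  simp

theorem gj_ne (j : Fin c) (hd : 1 ≤ d j) (hα : α j none ≠ 0) : H80W.gj n c d α j ≠ 0 := by
  intro h
  have h1 := congrArg (eval (fun b : Option (Fin n) => if b = none then (1 : ℂ) else 0)) h
  unfold H80W.gj at h1
  rw [map_sum, map_zero, Finset.sum_eq_single none] at h1
  · rw [map_mul, eval_C, map_pow, eval_X, if_pos rfl, one_pow, mul_one] at h1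
    exact hα h1
  · intro b _ hb
    rw [map_mul, map_pow, eval_X, if_neg hb, zero_pow (by omega), mul_zero]
  · intro h
    exact absurd (Finset.mem_univ _) h

/-- The variables are not zero divisors modulo the special forms. -/
theorem X_reg (hd : ∀ j, 1 ≤ d j) (hα : ∀ j, α j none ≠ 0) (b : Option (Fin (n + c)))
    {x : MvPolynomial (Option (Fin (n + c))) ℂ}
    (hx : X b * x ∈ Ideal.span (Set.range (H80W.Fx n c d α))) :
    x ∈ Ideal.span (Set.range (H80W.Fx n c d α)) := by
  have key : ∀ b' : Option (Fin n), X (H80W.vb n c b') * x ∈ Ideal.span (Set.range (H80W.Fx n c d α)) →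
      x ∈ Ideal.span (Set.range (H80W.Fx n c d α)) := by
    intro b' h
    rw [← w2_all] at h ⊢
    refine g_reg hd (X_ne_zero b') c le_rfl x ?_
    rw [rename_X]
    exact h
  cases b with
  | none => exact key none hx
  | some b =>
    revert hx
    refine Fin.addCases (fun i => ?_) (fun j => ?_) b
    · exact key (some i)
    · intro h
      have h1 : X (some (Fin.natAdd n j)) ^ d j * x ∈ Ideal.span (Set.range (H80W.Fx n c d α)) := by
        obtain ⟨e, he⟩ := Nat.exists_eq_add_of_le' (hd j)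
        rw [he, pow_succ, mul_assoc]
        exact Ideal.mul_mem_left _ _ h
      have h2 : rename (H80W.vb n c) (H80W.gj n c d α j) * x =
          H80W.Fx n c d α j * x - X (some (Fin.natAdd n j)) ^ d j * x := by
        have h3 : rename (H80W.vb n c) (H80W.gj n c d α j) = ∑ b, C (α j b) * X (H80W.vb n c b) ^ d j := by
          unfold H80W.gj
          rw [map_sum]
          refine Finset.sum_congr rfl fun b _ => ?_
          rw [map_mul, rename_C, map_pow, rename_X]
        rw [h3]
        unfold H80W.Fx H80W.vc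
        ring
      rw [← w2_all] at h1 ⊢
      refine g_reg hd (gj_ne j (hd j) (hα j)) c le_rfl x ?_
      rw [h2]
      refine Ideal.sub_mem _ (Ideal.mul_mem_right _ _ ?_) h1
      rw [w2_all]
      exact Ideal.subset_span ⟨j, rfl⟩

/-- Regularity of the forms in the polynomial ring of the jets. -/
theorem TR_F0s (hd : ∀ j, 1 ≤ d j) (j : Fin c) :
    TR (Ideal.span (H80W.F0s n c k d α '' {i | i < j})) (H80W.F0s n c k d α j) := by
  have h1 := TR_ext (N := n + c) (k := k) (Ideal.span (H80W.Fx n c d α '' {i | (i : ℕ) < (j : ℕ)}))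
    (H80W.Fx n c d α j) (fun x hx b => ⟨0, by
      rw [pow_zero, one_mul]
      exact Fx_reg hd j hx⟩)
  rw [Ideal.map_span, Set.image_image] at h1
  exact h1

end Pool.Agent.H54W
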