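import Mathlib

set_option autoImplicit false

/-!
H54W (MP_2a5ae2, the special model of H53W): the forms `F_j = ∑_{b = 0..n} α_(j, b) x_b ^ (d j) + x_(n + j) ^ (d j)`.
-/

open MvPolynomial

namespace Pool.Agent.H54W

variable {n c : ℕ} {B : Type*} [CommRing B]

/-- The indices `0, ..., n` among the indices `0, ..., n + c`. -/
def fr (n c : ℕ) (b : Option (Fin n)) : Option (Fin (n + c)) := b.map (Fin.castAdd c)

/-- The index `n + j`. -/
def pv (n : ℕ) {c : ℕ} (j : Fin c) : Option (Fin (n + c)) := some (Fin.natAdd n j)

/-- The special forms in the variables `x_0 = X none`, `x_b = X (some b)`. -/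
noncomputable def Fx (al : Fin c → Option (Fin n) → B) (d : Fin c → ℕ) (j : Fin c) :
    MvPolynomial (Option (Fin (n + c))) B :=
  ∑ b, C (al j b) * X (fr n c b) ^ d j + X (pv n j) ^ d j

/-- The determinant of the derivatives with respect to the `x_(β j)`. -/
noncomputable def Dx (al : Fin c → Option (Fin n) → B) (d : Fin c → ℕ) (β : Fin c → Fin (n + c)) :
    MvPolynomial (Option (Fin (n + c))) B :=
  (Matrix.of fun j r : Fin c => pderiv (some (β r)) (Fx al d j)).det

/-- The coefficients are not zero and the complete intersection is smooth, also at infinity. -/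
def GoodAl (al : Fin c → Option (Fin n) → ℂ) (d : Fin c → ℕ) : Prop :=
  (∀ j b, al j b ≠ 0) ∧ ∀ b : Option (Fin (n + c)), (X b : MvPolynomial (Option (Fin (n + c))) ℂ) ∈
    (Ideal.span (Set.range (Fx al d) ∪ Set.range (Dx al d))).radical

end Pool.Agent.H54W
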