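import Pool.Agent.Lib.H54W.D0
import Pool.Agent.Lib.H53V.ER6B
import Pool.Agent.Lib.H53V.ER6C

set_option autoImplicit false

/-!
H54W: existence of good coefficients of the special model (variant of H53V/ER6B, ER6C).
-/

open MvPolynomial

namespace Pool.Agent.H54W

open Pool.Agent.H89T Pool.Agent.H53V

variable {n c : ℕ} {d : Fin c → ℕ}

theorem w1_hom {B : Type*} [CommRing B] (al : Fin c → Option (Fin n) → B) (j : Fin c) :
    (Fx al d j).IsHomogeneous (d j) := by
  unfold Fx
  refine IsHomogeneous.add (IsHomogeneous.sum _ _ _ fun b _ => ?_) (isHomogeneous_X_pow _ _)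
  have h := (isHomogeneous_C (Option (Fin (n + c))) (al j b)).mul
    (isHomogeneous_X_pow (R := B) (fr n c b) (d j))
  rwa [zero_add] at h

theorem w1_map {B B' : Type*} [CommRing B] [CommRing B'] (φ : B →+* B')
    (al : Fin c → Option (Fin n) → B) (j : Fin c) :
    map φ (Fx al d j) = Fx (fun j b => φ (al j b)) d j := by
  unfold Fx
  rw [map_add, map_sum, map_pow, map_X]
  congr 1
  refine Finset.sum_congr rfl fun b _ => ?_
  rw [map_mul, map_C, map_pow, map_X]

/-- the coefficient ring -/
abbrev RA (n c : ℕ) : Type := MvPolynomial (Fin c × Option (Fin n)) ℂ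

/-- the generic coefficients -/
noncomputable def gA (n c : ℕ) (j : Fin c) (b : Option (Fin n)) : RA n c := X (j, b)

theorem w1_mcf {κ : Type} [Field κ] [Algebra ℂ κ] (D : Derivation ℂ κ κ)
    (a : Fin c → Option (Fin n) → κ) (j : Fin c) (x : Option (Fin (n + c)) → κ) :
    eval x (mcf D (Fx a d j)) = ∑ b, D (a j b) * x (fr n c b) ^ d j := by
  unfold Fx
  rw [map_add, map_sum, map_add, map_sum, er6b_pow D (mcf_X D _) _, map_zero, add_zero]
  refine Finset.sum_congr rfl fun b _ => ?_
  rw [Derivation.leibniz, er6b_pow D (mcf_X D _) _, smul_zero, zero_add, mcf_C, smul_eq_mul]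
  simp only [map_mul, map_pow, eval_X, eval_C]
  ring

theorem w1_smooth (hd : ∀ j, 1 ≤ d j) {κ : Type} [Field κ] [Algebra ℂ κ]
    [Algebra.EssFiniteType ℂ κ] (π : RA n c →ₐ[ℂ] κ) (hπ : Function.Injective π)
    (x : Option (Fin (n + c)) → κ) (hx : x ≠ 0)
    (hF : ∀ j, eval x (Fx (fun j b => π (gA n c j b)) d j) = 0) :
    ∃ β : Fin c → Fin (n + c),
      (Matrix.of fun (j r : Fin c) =>
        eval x (pderiv (some (β r)) (Fx (fun j b => π (gA n c j b)) d j))).det ≠ 0 := by
  classical
  by_contra hcon
  have hcon' : ∀ β : Fin c → Fin (n + c), (Matrix.of fun (j r : Fin c) =>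
        eval x (pderiv (some (β r)) (Fx (fun j b => π (gA n c j b)) d j))).det = 0 := fun β => by
    by_contra h
    exact hcon ⟨β, h⟩
  obtain ⟨lam, hlam0, hlam⟩ := minors_zero (fun (j : Fin c) (b : Fin (n + c)) =>
    eval x (pderiv (some b) (Fx (fun j b => π (gA n c j b)) d j))) hcon'
  obtain ⟨b0, hb0⟩ : ∃ b0 : Option (Fin n), x (fr n c b0) ≠ 0 := by
    by_contra h
    push Not at h
    apply hx
    funext b
    have h1 : ∀ j : Fin c, x (pv n j) = 0 := by
      intro j
      have h2 := hF j
      unfold Fx at h2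
      rw [map_add, map_sum, map_pow, eval_X] at h2
      have h3 : ∑ b, eval x (C (π (gA n c j b)) * X (fr n c b) ^ d j) = 0 := by
        refine Finset.sum_eq_zero fun b _ => ?_
        rw [map_mul, map_pow, eval_X, h b, zero_pow (by have := hd j; omega), mul_zero]
      rw [h3, zero_add] at h2
      exact pow_eq_zero_iff (by have := hd j; omega) |>.mp h2
    cases b with
    | none => exact h none
    | some b =>
      refine Fin.addCases (fun i => ?_) (fun j => ?_) b
      · exact h (some i)
      · exact h1 j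
  -- Euler's identity
  have heul : x none * ∑ j, lam j * eval x (pderiv none (Fx (fun j b => π (gA n c j b)) d j)) = 0 := by
    have h1 : ∀ j, x none * eval x (pderiv none (Fx (fun j b => π (gA n c j b)) d j)) +
        ∑ b : Fin (n + c), x (some b) *
          eval x (pderiv (some b) (Fx (fun j b => π (gA n c j b)) d j)) = 0 := by
      intro j
      have h2 := congrArg (eval x)
        (w1_hom (d := d) (fun j b => π (gA n c j b)) j).sum_X_mul_pderiv
      rw [map_sum, Fintype.sum_option, map_nsmul, hF, smul_zero] at h2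
      simp only [map_mul, eval_X] at h2
      exact h2
    have h3 : ∑ j, lam j * (x none *
          eval x (pderiv none (Fx (fun j b => π (gA n c j b)) d j)) +
        ∑ b : Fin (n + c), x (some b) *
          eval x (pderiv (some b) (Fx (fun j b => π (gA n c j b)) d j))) = 0 :=
      Finset.sum_eq_zero fun j _ => by rw [h1 j, mul_zero]
    simp only [mul_add, Finset.mul_sum] at h3
    rw [Finset.sum_add_distrib] at h3
    have h4 : ∑ j, ∑ b : Fin (n + c), lam j * (x (some b) *
        eval x (pderiv (some b) (Fx (fun j b => π (gA n c j b)) d j))) = 0 := by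
      rw [Finset.sum_comm]
      refine Finset.sum_eq_zero fun b _ => ?_
      have h5 : ∑ j, lam j * (x (some b) *
          eval x (pderiv (some b) (Fx (fun j b => π (gA n c j b)) d j))) =
          x (some b) * ∑ j, lam j *
            eval x (pderiv (some b) (Fx (fun j b => π (gA n c j b)) d j)) := by
        rw [Finset.mul_sum]
        exact Finset.sum_congr rfl fun j _ => by ring
      rw [h5, hlam b, mul_zero]
    rw [h4, add_zero] at h3
    rw [Finset.mul_sum, ← h3]
    exact Finset.sum_congr rfl fun j _ => by ring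
  apply hlam0
  funext j0
  obtain ⟨D, hD⟩ := ext_field π hπ (fun p : Fin c × Option (Fin n) => if p = (j0, b0) then 1 else 0)
  have hD' : ∀ (j : Fin c) (b : Option (Fin n)), D (π (gA n c j b)) =
      if j = j0 ∧ b = b0 then 1 else 0 := by
    intro j b
    have h := hD (j, b)
    unfold gA
    rw [h]
    simp only [Prod.mk.injEq]
  have h6 : ∀ j, (if j = j0 then x (fr n c b0) ^ d j0 else 0) +
      ∑ b : Option (Fin (n + c)),
        eval x (pderiv b (Fx (fun j b => π (gA n c j b)) d j)) * D (x b) = 0 := by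
    intro j
    have h7 := er6b_D D x (Fx (fun j b => π (gA n c j b)) d j)
    rw [hF, map_zero, w1_mcf] at h7
    have h8 : ∑ b, D (π (gA n c j b)) * x (fr n c b) ^ d j =
        if j = j0 then x (fr n c b0) ^ d j0 else 0 := by
      by_cases hj : j = j0
      · subst hj
        rw [if_pos rfl, Finset.sum_eq_single b0]
        · rw [hD', if_pos ⟨rfl, rfl⟩, one_mul]
        · intro b _ hb
          rw [hD', if_neg (fun h => hb h.2), zero_mul]
        · intro h
          exact absurd (Finset.mem_univ _) h
      · rw [if_neg hj]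
        refine Finset.sum_eq_zero fun b _ => ?_
        rw [hD', if_neg (fun h => hj h.1), zero_mul]
    rw [← h8]
    exact h7.symm
  have h8 : ∑ j, lam j * ((if j = j0 then x (fr n c b0) ^ d j0 else 0) +
      ∑ b : Option (Fin (n + c)),
        eval x (pderiv b (Fx (fun j b => π (gA n c j b)) d j)) * D (x b)) = 0 :=
    Finset.sum_eq_zero fun j _ => by rw [h6 j, mul_zero]
  simp only [mul_add] at h8
  rw [Finset.sum_add_distrib] at h8
  have h9 : ∑ j, lam j * ∑ b : Option (Fin (n + c)),
      eval x (pderiv b (Fx (fun j b => π (gA n c j b)) d j)) * D (x b) = 0 := by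
    have h10 : ∑ j, lam j * ∑ b : Option (Fin (n + c)),
          eval x (pderiv b (Fx (fun j b => π (gA n c j b)) d j)) * D (x b) =
        ∑ b : Option (Fin (n + c)), (∑ j, lam j *
          eval x (pderiv b (Fx (fun j b => π (gA n c j b)) d j))) * D (x b) := by
      simp only [Finset.mul_sum, Finset.sum_mul]
      rw [Finset.sum_comm]
      exact Finset.sum_congr rfl fun b _ => Finset.sum_congr rfl fun j _ => by ring
    rw [h10, Fintype.sum_option]
    have h11 : (∑ j, lam j * eval x (pderiv none (Fx (fun j b => π (gA n c j b)) d j))) *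
        D (x none) = 0 := by
      rcases mul_eq_zero.1 heul with h | h
      · rw [h, map_zero, mul_zero]
      · rw [h, zero_mul]
    rw [h11, zero_add]
    refine Finset.sum_eq_zero fun b _ => ?_
    rw [hlam b, zero_mul]
  rw [h9, add_zero, Finset.sum_eq_single j0] at h8
  · rw [if_pos rfl] at h8
    rcases mul_eq_zero.1 h8 with h | h
    · exact h
    · exact absurd h (pow_ne_zero _ hb0)
  · intro j _ hj
    rw [if_neg hj, mul_zero]
  · intro h
    exact absurd (Finset.mem_univ _) h

/-- the field -/
abbrev KA (n c : ℕ) : Type := FractionRing (RA n c)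

/-- the generic coefficients in the field -/
noncomputable def gAK (n c : ℕ) (j : Fin c) (b : Option (Fin n)) : KA n c :=
  algebraMap (RA n c) (KA n c) (gA n c j b)

theorem w1_ess (𝔭 : Ideal (MvPolynomial (Option (Fin (n + c))) (KA n c))) [𝔭.IsPrime] :
    Algebra.EssFiniteType ℂ
      (FractionRing (MvPolynomial (Option (Fin (n + c))) (KA n c) ⧸ 𝔭)) := by
  have h1 : Algebra.EssFiniteType ℂ (KA n c) := inferInstance
  have h2 : Algebra.EssFiniteType (KA n c) (MvPolynomial (Option (Fin (n + c))) (KA n c)) :=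
    inferInstance
  have h3 : Algebra.EssFiniteType ℂ (MvPolynomial (Option (Fin (n + c))) (KA n c)) :=
    Algebra.EssFiniteType.comp ℂ (KA n c) _
  have h4 : Algebra.EssFiniteType ℂ (MvPolynomial (Option (Fin (n + c))) (KA n c) ⧸ 𝔭) :=
    inferInstance
  exact inferInstance

theorem w1_rad (hd : ∀ j, 1 ≤ d j) (b : Option (Fin (n + c))) :
    ∃ r : ℕ, (X b : MvPolynomial (Option (Fin (n + c))) (KA n c)) ^ r ∈
      Ideal.span (Set.range (Fx (gAK n c) d) ∪ Set.range (Dx (gAK n c) d)) := by
  classical
  obtain ⟨I, hI⟩ : ∃ I, I = Ideal.span (Set.range (Fx (gAK n c) d) ∪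
    Set.range (Dx (gAK n c) d)) := ⟨_, rfl⟩
  rw [← hI]
  have hrad : (X b : MvPolynomial (Option (Fin (n + c))) (KA n c)) ∈ I.radical := by
    rw [Ideal.radical_eq_sInf, Submodule.mem_sInf]
    rintro 𝔭 ⟨hle, hprime⟩
    by_contra hXb
    have this : Ideal.IsPrime 𝔭 := hprime
    have hess := w1_ess 𝔭
    obtain ⟨φ, hφ⟩ : ∃ φ : MvPolynomial (Option (Fin (n + c))) (KA n c) →+*
        FractionRing (MvPolynomial (Option (Fin (n + c))) (KA n c) ⧸ 𝔭),
      φ = (algebraMap (MvPolynomial (Option (Fin (n + c))) (KA n c) ⧸ 𝔭) _).comp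
        (Ideal.Quotient.mk 𝔭) := ⟨_, rfl⟩
    have hφ0 : ∀ y, φ y = 0 ↔ y ∈ 𝔭 := by
      intro y
      rw [hφ, RingHom.comp_apply, ← Ideal.Quotient.eq_zero_iff_mem]
      exact map_eq_zero_iff _ (IsFractionRing.injective _ _)
    obtain ⟨π, hπ⟩ : ∃ π : RA n c →ₐ[ℂ]
        FractionRing (MvPolynomial (Option (Fin (n + c))) (KA n c) ⧸ 𝔭),
      ∀ r, π r = φ (C (algebraMap (RA n c) (KA n c) r)) := by
      refine ⟨(IsScalarTower.toAlgHom ℂ (MvPolynomial (Option (Fin (n + c))) (KA n c) ⧸ 𝔭)
        (FractionRing (MvPolynomial (Option (Fin (n + c))) (KA n c) ⧸ 𝔭))).comp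
        ((Ideal.Quotient.mkₐ ℂ 𝔭).comp
        ((IsScalarTower.toAlgHom ℂ (KA n c) (MvPolynomial (Option (Fin (n + c))) (KA n c))).comp
          (IsScalarTower.toAlgHom ℂ (RA n c) (KA n c)))), fun r => ?_⟩
      rw [hφ]
      rfl
    have hπinj : Function.Injective π := by
      have h1 : Function.Injective (φ.comp
          (C : KA n c →+* MvPolynomial (Option (Fin (n + c))) (KA n c))) :=
        RingHom.injective _
      intro r s hrs
      rw [hπ, hπ] at hrs
      exact IsFractionRing.injective (RA n c) (KA n c) (h1 hrs)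
    have hF : ∀ j, Fx (fun j b => π (gA n c j b)) d j =
        map (φ.comp (C : KA n c →+* MvPolynomial (Option (Fin (n + c))) (KA n c)))
          (Fx (gAK n c) d j) := by
      intro j
      rw [w1_map]
      congr 1
      funext j b
      exact hπ _
    have hx : (fun b => φ (X b)) ≠ 0 := by
      intro h
      exact hXb ((hφ0 _).1 (congrFun h b))
    obtain ⟨β, hβ⟩ := w1_smooth hd π hπinj (fun b => φ (X b)) hx (fun j => by
      rw [hF, er6c_eval, hφ0]
      refine hle ?_
      rw [hI]
      exact Ideal.subset_span (Or.inl ⟨j, rfl⟩))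
    apply hβ
    have hmem : Dx (gAK n c) d β ∈ 𝔭 := by
      refine hle ?_
      rw [hI]
      exact Ideal.subset_span (Or.inr ⟨β, rfl⟩)
    have h0 := (hφ0 _).2 hmem
    unfold Dx at h0
    rw [RingHom.map_det] at h0
    rw [← h0]
    congr 1
    ext j r
    show eval (fun b => φ (X b)) (pderiv (some (β r)) (Fx (fun j b => π (gA n c j b)) d j)) =
      φ (pderiv (some (β r)) (Fx (gAK n c) d j))
    rw [hF, pderiv_map, er6c_eval]
  exact Ideal.mem_radical_iff.1 hrad

end Pool.Agent.H54W
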