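import Pool.Agent.Lib.H54W.W1
import Pool.Agent.Lib.H80W.D0

set_option autoImplicit false

/-!
H54W: existence of good coefficients of the special model over the complex numbers.
-/

open MvPolynomial

namespace Pool.Agent.H54W

open Pool.Agent.H89T Pool.Agent.H53V

section Clear

variable {ι : Type*} {R : Type*} [CommRing R] [IsDomain R]

theorem w1c_surj (f : MvPolynomial ι (FractionRing R)) :
    ∃ (ρ : R) (f₀ : MvPolynomial ι R), ρ ≠ 0 ∧
      C (algebraMap R (FractionRing R) ρ) * f = map (algebraMap R (FractionRing R)) f₀ := by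
  induction f using MvPolynomial.induction_on with
  | C x =>
    obtain ⟨a, b, hb, h⟩ := IsFractionRing.div_surjective (A := R) x
    refine ⟨b, C a, nonZeroDivisors.ne_zero hb, ?_⟩
    have hb' : algebraMap R (FractionRing R) b ≠ 0 :=
      (map_ne_zero_iff _ (IsFractionRing.injective R (FractionRing R))).2 (nonZeroDivisors.ne_zero hb)
    rw [← h, map_C, ← C_mul, mul_div_cancel₀ _ hb']
  | add p q hp hq =>
    obtain ⟨r1, f1, h1, e1⟩ := hp
    obtain ⟨r2, f2, h2, e2⟩ := hq
    refine ⟨r1 * r2, C r2 * f1 + C r1 * f2, mul_ne_zero h1 h2, ?_⟩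
    simp only [map_add, map_mul, map_C]
    rw [← e1, ← e2]
    ring
  | mul_X p i hp =>
    obtain ⟨r1, f1, h1, e1⟩ := hp
    refine ⟨r1, f1 * X i, h1, ?_⟩
    rw [map_mul, map_X, ← e1, mul_assoc]

theorem w1c_span (T : Set (MvPolynomial ι R))
    {h : MvPolynomial ι (FractionRing R)}
    (hh : h ∈ Ideal.span (map (algebraMap R (FractionRing R)) '' T)) :
    ∃ (ρ : R) (g : MvPolynomial ι R), ρ ≠ 0 ∧ g ∈ Ideal.span T ∧
      C (algebraMap R (FractionRing R) ρ) * h = map (algebraMap R (FractionRing R)) g := by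
  induction hh using Submodule.span_induction with
  | mem x hx =>
    obtain ⟨t, ht, rfl⟩ := hx
    exact ⟨1, t, one_ne_zero, Ideal.subset_span ht, by rw [map_one, C_1, one_mul]⟩
  | zero => exact ⟨1, 0, one_ne_zero, Ideal.zero_mem _, by rw [mul_zero, map_zero]⟩
  | add x y _ _ hx hy =>
    obtain ⟨r1, g1, n1, i1, h1⟩ := hx
    obtain ⟨r2, g2, n2, i2, h2⟩ := hy
    refine ⟨r1 * r2, C r2 * g1 + C r1 * g2, mul_ne_zero n1 n2,
      Ideal.add_mem _ (Ideal.mul_mem_left _ _ i1) (Ideal.mul_mem_left _ _ i2), ?_⟩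
    simp only [map_add, map_mul, map_C]
    rw [← h1, ← h2]
    ring
  | smul a x _ hx =>
    obtain ⟨r1, g1, n1, i1, h1⟩ := hx
    obtain ⟨r2, g2, n2, h2⟩ := w1c_surj a
    refine ⟨r1 * r2, g2 * g1, mul_ne_zero n1 n2, Ideal.mul_mem_left _ _ i1, ?_⟩
    simp only [map_mul, smul_eq_mul]
    rw [← h1, ← h2]
    ring

end Clear

variable {n c : ℕ} {d : Fin c → ℕ}

theorem w1c_D {B B' : Type*} [CommRing B] [CommRing B'] (φ : B →+* B')
    (al : Fin c → Option (Fin n) → B) (β : Fin c → Fin (n + c)) :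
    map φ (Dx al d β) = Dx (fun j b => φ (al j b)) d β := by
  unfold Dx
  rw [RingHom.map_det]
  congr 1
  ext1 j r
  show map φ (pderiv (some (β r)) (Fx al d j)) = pderiv (some (β r)) (Fx (fun j b => φ (al j b)) d j)
  rw [← w1_map, pderiv_map]

/-- Existence of good coefficients. -/
theorem exists_goodAl (hd : ∀ j, 1 ≤ d j) : ∃ al : Fin c → Option (Fin n) → ℂ, GoodAl al d := by
  classical
  have h1 : ∀ b : Option (Fin (n + c)), ∃ (r : ℕ) (ρ : RA n c), ρ ≠ 0 ∧
      C ρ * X b ^ r ∈ Ideal.span (Set.range (Fx (gA n c) d) ∪ Set.range (Dx (gA n c) d)) := by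
    intro b
    obtain ⟨r, hr⟩ := w1_rad hd b
    have hset : map (algebraMap (RA n c) (KA n c)) ''
        (Set.range (Fx (gA n c) d) ∪ Set.range (Dx (gA n c) d)) =
        Set.range (Fx (gAK n c) d) ∪ Set.range (Dx (gAK n c) d) := by
      rw [Set.image_union, ← Set.range_comp, ← Set.range_comp]
      congr 1
      · exact congrArg Set.range (funext fun j => w1_map _ _ _)
      · exact congrArg Set.range (funext fun β => w1c_D _ _ _)
    rw [← hset] at hr
    obtain ⟨ρ, g, hρ, hg, he⟩ := w1c_span _ hr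
    refine ⟨r, ρ, hρ, ?_⟩
    have h2 : C ρ * X b ^ r = g := by
      refine map_injective _ (IsFractionRing.injective (RA n c) (KA n c)) ?_
      rw [map_mul, map_C, map_pow, map_X, he]
    rw [h2]
    exact hg
  choose r ρ hρ hmem using h1
  have h2 : (∏ b, ρ b) * ∏ p : Fin c × Option (Fin n), (X p : RA n c) ≠ 0 :=
    mul_ne_zero (Finset.prod_ne_zero_iff.2 fun b _ => hρ b)
      (Finset.prod_ne_zero_iff.2 fun p _ => X_ne_zero p)
  obtain ⟨a, ha⟩ : ∃ a : Fin c × Option (Fin n) → ℂ,
      eval a ((∏ b, ρ b) * ∏ p : Fin c × Option (Fin n), (X p : RA n c)) ≠ 0 := by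
    by_contra h
    push Not at h
    exact h2 (MvPolynomial.funext fun a => by rw [h a, map_zero])
  rw [map_mul, map_prod, map_prod] at ha
  have ha1 := Finset.prod_ne_zero_iff.1 (left_ne_zero_of_mul ha)
  have ha2 := Finset.prod_ne_zero_iff.1 (right_ne_zero_of_mul ha)
  refine ⟨fun j b => a (j, b), fun j b => ?_, fun b => ?_⟩
  · have := ha2 (j, b) (Finset.mem_univ _)
    rwa [eval_X] at this
  · have h3 := Ideal.mem_map_of_mem (map (eval a)) (hmem b)
    rw [Ideal.map_span, map_mul, map_C, map_pow, map_X] at h3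
    have hset : map (eval a) ''
        (Set.range (Fx (gA n c) d) ∪ Set.range (Dx (gA n c) d)) =
        Set.range (Fx (fun j b => a (j, b)) d) ∪ Set.range (Dx (fun j b => a (j, b)) d) := by
      have e1 : (fun (j : Fin c) (b : Option (Fin n)) => eval a (gA n c j b)) = fun j b => a (j, b) := by
        funext j b
        exact eval_X _
      rw [Set.image_union, ← Set.range_comp, ← Set.range_comp]
      congr 1
      · refine congrArg Set.range (funext fun j => ?_)
        show map (eval a) (Fx (gA n c) d j) = _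
        rw [w1_map, e1]
      · refine congrArg Set.range (funext fun β => ?_)
        show map (eval a) (Dx (gA n c) d β) = _
        rw [w1c_D, e1]
    rw [hset] at h3
    refine Ideal.mem_radical_iff.2 ⟨r b, ?_⟩
    have h4 := Ideal.mul_mem_left _ (C (eval a (ρ b))⁻¹) h3
    rwa [← mul_assoc, ← C_mul, inv_mul_cancel₀ (ha1 b (Finset.mem_univ _)), C_1, one_mul] at h4

end Pool.Agent.H54W
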