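import Pool.Agent.Lib.H54W.W1C

set_option autoImplicit false

/-!
H54W: the structure `GoodA` of H80W for good coefficients.
-/

open MvPolynomial

namespace Pool.Agent.H54W

variable {n c : ℕ} {d : Fin c → ℕ}

theorem w1d_Fx (al : Fin c → Option (Fin n) → ℂ) (j : Fin c) : Fx al d j = H80W.Fx n c d al j := by
  exact add_comm _ _

theorem w1d_J (al : Fin c → Option (Fin n) → ℂ) (j : Fin c) (b : Fin (n + c)) :
    pderiv (some b) (H80W.Fx n c d al j) = C (d j : ℂ) * H80W.Jx n c d al j b := by
  classical
  unfold H80W.Fx H80W.Jx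
  rw [map_add, map_sum]
  refine Fin.addCases (fun i => ?_) (fun j' => ?_) b
  · rw [Fin.addCases_left, pderiv_pow]
    have h1 : pderiv (some (Fin.castAdd c i)) (X (H80W.vc n c j) : MvPolynomial (Option (Fin (n + c))) ℂ) = 0 := by
      rw [pderiv_X_of_ne]
      unfold H80W.vc
      intro h
      have := congrArg (fun o : Option (Fin (n + c)) => o.elim 0 fun a => (a : ℕ)) h
      simp at this
      omega
    rw [h1, mul_zero, zero_add, Finset.sum_eq_single (some i)]
    · have h2 : H80W.vb n c (some i) = some (Fin.castAdd c i) := rfl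
      rw [Derivation.leibniz, pderiv_C, smul_zero, add_zero, pderiv_pow, h2, pderiv_X_self, smul_eq_mul,
        ← C_eq_coe_nat]
      ring
    · intro b _ hb
      rw [Derivation.leibniz, pderiv_C, smul_zero, add_zero, pderiv_pow, pderiv_X_of_ne, mul_zero, smul_zero]
      intro h
      apply hb
      cases b with
      | none => exact absurd h (by unfold H80W.vb; simp)
      | some b =>
        unfold H80W.vb at h
        have h3 := Option.some_injective _ h
        rw [Fin.castAdd_injective n c h3]
    · intro h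
      exact absurd (Finset.mem_univ _) h
  · rw [Fin.addCases_right, pderiv_pow]
    have h1 : ∑ b, pderiv (some (Fin.natAdd n j')) (C (al j b) * X (H80W.vb n c b) ^ d j) = 0 := by
      refine Finset.sum_eq_zero fun b _ => ?_
      rw [Derivation.leibniz, pderiv_C, smul_zero, add_zero, pderiv_pow, pderiv_X_of_ne, mul_zero, smul_zero]
      intro h
      cases b with
      | none => exact absurd h (by unfold H80W.vb; simp)
      | some b =>
        unfold H80W.vb at h
        have h3 := congrArg (fun o : Option (Fin (n + c)) => o.elim 0 fun a => (a : ℕ)) h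
        simp at h3
        omega
    rw [h1, add_zero]
    by_cases hj : j' = j
    · subst hj
      rw [if_pos rfl]
      have h2 : H80W.vc n c j' = some (Fin.natAdd n j') := rfl
      rw [h2, pderiv_X_self, ← C_eq_coe_nat, mul_one]
    · rw [if_neg hj, mul_zero, pderiv_X_of_ne, mul_zero]
      unfold H80W.vc
      intro h
      have h3 := congrArg (fun o : Option (Fin (n + c)) => o.elim 0 fun a => (a : ℕ)) h
      simp at h3
      apply hj
      exact (Fin.ext (by omega))

/-- Linear algebra at a point. -/
theorem w1d_lin {κ : Type*} [Field κ] (A : Fin c → Fin n → κ) (D : Fin c → κ)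
    (h : ∀ lam : Fin c → κ, (∀ i, ∑ j, lam j * A j i = 0) → (∀ j, lam j * D j = 0) → lam = 0) :
    ∃ β : Fin n → Fin (n + c), (∀ j, (∃ r, β r = Fin.natAdd n j) ∨ D j ≠ 0) ∧
      (Matrix.of fun r i : Fin n => (Fin.addCases (fun a => if a = i then (1 : κ) else 0)
        (fun j => - A j i) (β r) : κ)).det ≠ 0 := by
  classical
  obtain ⟨v, hv⟩ : ∃ v : Fin (n + c) → Fin n → κ, v = fun b i =>
      (Fin.addCases (fun a => if a = i then (1 : κ) else 0) (fun j => - A j i) b : κ) := ⟨_, rfl⟩
  have hv1 : ∀ a, v (Fin.castAdd c a) = Pi.single a 1 := by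
    intro a
    funext i
    rw [hv]
    show (Fin.addCases (fun a => if a = i then (1 : κ) else 0) (fun j => - A j i) (Fin.castAdd c a) : κ) = _
    rw [Fin.addCases_left, Pi.single_apply]
    by_cases hai : a = i
    · rw [if_pos hai, if_pos hai.symm]
    · rw [if_neg hai, if_neg (Ne.symm hai)]
  have hv2 : ∀ j i, v (Fin.natAdd n j) i = - A j i := by
    intro j i
    rw [hv]
    show (Fin.addCases (fun a => if a = i then (1 : κ) else 0) (fun j => - A j i) (Fin.natAdd n j) : κ) = _
    rw [Fin.addCases_right]
  obtain ⟨T0, hT0⟩ : ∃ T0 : Finset (Fin c), T0 = Finset.univ.filter fun j => D j = 0 := ⟨_, rfl⟩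
  have hT0' : ∀ j, j ∈ T0 ↔ D j = 0 := by
    intro j
    rw [hT0, Finset.mem_filter]
    exact ⟨fun h => h.2, fun h => ⟨Finset.mem_univ _, h⟩⟩
  have hli : LinearIndepOn κ (v ∘ Fin.natAdd n) (T0 : Set (Fin c)) := by
    rw [linearIndepOn_finset_iff]
    intro f hf j hj
    have h1 := h (fun j => if D j = 0 then f j else 0) (fun i => ?_) (fun j => ?_)
    · have h2 := congrFun h1 j
      simp only [Pi.zero_apply] at h2
      rwa [if_pos ((hT0' j).1 hj)] at h2
    · have h3 := congrFun hf i
      rw [Finset.sum_apply, Pi.zero_apply] at h3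
      have h4 : ∑ j, (if D j = 0 then f j else 0) * A j i = ∑ j ∈ T0, f j * A j i := by
        rw [hT0, Finset.sum_filter]
        refine Finset.sum_congr rfl fun j _ => ?_
        by_cases hj : D j = 0
        · rw [if_pos hj, if_pos hj]
        · rw [if_neg hj, if_neg hj, zero_mul]
      rw [h4]
      have h5 : ∑ j ∈ T0, (f j • (v ∘ Fin.natAdd n) j) i = - ∑ j ∈ T0, f j * A j i := by
        rw [← Finset.sum_neg_distrib]
        refine Finset.sum_congr rfl fun j _ => ?_
        rw [Pi.smul_apply, Function.comp_apply, hv2, smul_eq_mul, mul_neg]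
      rw [h5] at h3
      exact neg_eq_zero.1 h3
    · show (if D j = 0 then f j else 0) * D j = 0
      by_cases hj : D j = 0
      · rw [hj, mul_zero]
      · rw [if_neg hj, zero_mul]
  have hli2 := hli.image_of_comp
  obtain ⟨b, -, hsb, hspan, hlb⟩ := exists_linearIndepOn_extension hli2 (Set.subset_univ _)
  have htop : ⊤ ≤ Submodule.span κ (Set.range fun x : b => v x) := by
    have e1 : Set.range (fun x : b => v x) = v '' b := by
      ext y
      constructor
      · rintro ⟨x, rfl⟩
        exact ⟨x, x.2, rfl⟩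
      · rintro ⟨x, hx, rfl⟩
        exact ⟨⟨x, hx⟩, rfl⟩
    rw [e1]
    intro y _
    have e2 : y = ∑ a, y a • v (Fin.castAdd c a) := by
      funext i
      rw [Finset.sum_apply, Finset.sum_eq_single i]
      · rw [Pi.smul_apply, hv1, Pi.single_eq_same, smul_eq_mul, mul_one]
      · intro a _ ha
        rw [Pi.smul_apply, hv1, Pi.single_eq_of_ne (Ne.symm ha), smul_zero]
      · intro h
        exact absurd (Finset.mem_univ _) h
    rw [e2]
    exact Submodule.sum_mem _ fun a _ => Submodule.smul_mem _ _ (hspan ⟨_, Set.mem_univ _, rfl⟩)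
  have hbas := Module.finrank_eq_card_basis (Module.Basis.mk hlb htop)
  rw [Module.finrank_pi, Fintype.card_fin] at hbas
  have e : Fin n ≃ b := (Fintype.equivFinOfCardEq hbas.symm).symm
  refine ⟨fun r => (e r : Fin (n + c)), fun j => ?_, ?_⟩
  · by_cases hj : D j = 0
    · left
      have h1 : Fin.natAdd n j ∈ b := hsb ⟨j, (hT0' j).2 hj, rfl⟩
      refine ⟨e.symm ⟨_, h1⟩, ?_⟩
      show ((e (e.symm ⟨_, h1⟩) : b) : Fin (n + c)) = _
      rw [Equiv.apply_symm_apply]
    · exact Or.inr hj
  · have h1 : LinearIndependent κ fun r : Fin n => v (e r : Fin (n + c)) :=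
      hlb.comp e e.injective
    have h2 : LinearIndependent κ (Matrix.of fun r i : Fin n => v (e r : Fin (n + c)) i).row := h1
    have h3 := (Matrix.linearIndependent_rows_iff_isUnit.1 h2)
    have h4 := ((Matrix.isUnit_iff_isUnit_det _).1 h3).ne_zero
    rw [hv] at h4
    exact h4

/-- Existence of good coefficients. -/
theorem exists_good (n c : ℕ) (d : Fin c → ℕ) (hd : ∀ j, 2 ≤ d j) :
    ∃ α : Fin c → Option (Fin n) → ℂ, H80W.GoodA n c d α := by
  classical
  obtain ⟨α, hα, hrad⟩ := exists_goodAl (n := n) (d := d) fun j => le_trans (by norm_num) (hd j)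
  have hsm' : ∀ b, ∃ r : ℕ, (X b : MvPolynomial (Option (Fin (n + c))) ℂ) ^ r ∈
      Ideal.span (Set.range (H80W.Fx n c d α) ∪
        Set.range fun β : Fin c → Fin (n + c) =>
          (Matrix.of fun j r : Fin c => H80W.Jx n c d α j (β r)).det) := by
    intro b
    obtain ⟨r, hr⟩ := Ideal.mem_radical_iff.1 (hrad b)
    refine ⟨r, ?_⟩
    have hle : Ideal.span (Set.range (Fx α d) ∪ Set.range (Dx α d)) ≤
        Ideal.span (Set.range (H80W.Fx n c d α) ∪
        Set.range fun β : Fin c → Fin (n + c) =>
          (Matrix.of fun j r : Fin c => H80W.Jx n c d α j (β r)).det) := by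
      rw [Ideal.span_le]
      rintro f (⟨j, rfl⟩ | ⟨β, rfl⟩)
      · refine Ideal.subset_span (Or.inl ⟨j, ?_⟩)
        exact (w1d_Fx α j).symm
      · have h1 : Dx α d β = (∏ j, C (d j : ℂ)) *
            (Matrix.of fun j r : Fin c => H80W.Jx n c d α j (β r)).det := by
          rw [← Matrix.det_mul_column]
          unfold Dx
          congr 1
          ext1 j r
          show pderiv (some (β r)) (Fx α d j) = C (d j : ℂ) * H80W.Jx n c d α j (β r)
          rw [w1d_Fx, w1d_J]
        rw [h1]
        exact Ideal.mul_mem_left _ _ (Ideal.subset_span (Or.inr ⟨β, rfl⟩))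
    exact hle hr
  refine ⟨α, hα, fun b => ?_, hsm'⟩
  have hI : (X b : MvPolynomial (Option (Fin (n + c))) ℂ) ∈
      (Ideal.span (Set.range (H80W.Fx n c d α) ∪ Set.range (H80W.wx n c d α))).radical := by
    rw [← vanishingIdeal_zeroLocus_eq_radical (K := ℂ)]
    rw [mem_vanishingIdeal_iff]
    intro x hx
    rw [zeroLocus_span] at hx
    rw [aeval_X]
    by_contra hxb
    have hxF : ∀ j, eval x (H80W.Fx n c d α j) = 0 := fun j => by
      have := hx _ (Or.inl ⟨j, rfl⟩)
      rwa [aeval_eq_eval] at this
    have hxw : ∀ β, eval x (H80W.wx n c d α β) = 0 := fun β => by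
      have := hx _ (Or.inr ⟨β, rfl⟩)
      rwa [aeval_eq_eval] at this
    -- a minor is not zero
    obtain ⟨β0, hβ0⟩ : ∃ β : Fin c → Fin (n + c),
        eval x (Matrix.of fun j r : Fin c => H80W.Jx n c d α j (β r)).det ≠ 0 := by
      by_contra hcon
      push Not at hcon
      obtain ⟨r, hr⟩ := hsm' b
      have hker : Ideal.span (Set.range (H80W.Fx n c d α) ∪
        Set.range fun β : Fin c → Fin (n + c) =>
          (Matrix.of fun j r : Fin c => H80W.Jx n c d α j (β r)).det) ≤ RingHom.ker (eval x) := by
        rw [Ideal.span_le]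
        rintro f (⟨j, rfl⟩ | ⟨β, rfl⟩)
        · exact hxF j
        · exact hcon β
      have h1 := hker hr
      rw [RingHom.mem_ker, map_pow, eval_X] at h1
      exact pow_ne_zero r hxb h1
    obtain ⟨β, hβ1, hβ2⟩ := w1d_lin (fun (j : Fin c) (i : Fin n) => α j (some i) * x (H80W.vb n c (some i)) ^ (d j - 1))
      (fun j => x (H80W.vc n c j) ^ (d j - 1)) (fun lam h1 h2 => by
        rw [RingHom.map_det] at hβ0
        refine Matrix.eq_zero_of_vecMul_eq_zero hβ0 ?_
        funext r
        show ∑ j, lam j * eval x (H80W.Jx n c d α j (β0 r)) = 0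
        unfold H80W.Jx
        refine Fin.addCases (fun i => ?_) (fun j' => ?_) (β0 r)
        · rw [← h1 i]
          refine Finset.sum_congr rfl fun j _ => ?_
          rw [Fin.addCases_left, map_mul, eval_C, map_pow, eval_X]
        · rw [Finset.sum_eq_single j']
          · rw [Fin.addCases_right, if_pos rfl, map_pow, eval_X]
            exact h2 j'
          · intro j _ hj
            rw [Fin.addCases_right, if_neg (Ne.symm hj), map_zero, mul_zero]
          · intro h
            exact absurd (Finset.mem_univ _) h)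
    have h3 := hxw β
    unfold H80W.wx at h3
    rw [map_mul, RingHom.map_det] at h3
    rcases mul_eq_zero.1 h3 with h | h
    · rw [map_prod, Finset.prod_eq_zero_iff] at h
      obtain ⟨j, -, hj⟩ := h
      rcases hβ1 j with h4 | h4
      · rw [if_pos h4, map_one] at hj
        exact one_ne_zero hj
      · by_cases h5 : ∃ r, β r = Fin.natAdd n j
        · rw [if_pos h5, map_one] at hj
          exact one_ne_zero hj
        · rw [if_neg h5, map_pow, eval_X] at hj
          exact h4 hj
    · refine hβ2 (Eq.trans ?_ h)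
      congr 1
      ext1 r i
      show (Fin.addCases (fun a => if a = i then (1 : ℂ) else 0)
        (fun j => - (α j (some i) * x (H80W.vb n c (some i)) ^ (d j - 1))) (β r) : ℂ) =
          eval x (H80W.Mx n c d α (β r) i)
      unfold H80W.Mx
      refine Fin.addCases (fun a => ?_) (fun j => ?_) (β r)
      · rw [Fin.addCases_left, Fin.addCases_left]
        by_cases ha : a = i
        · rw [if_pos ha, if_pos ha, map_one]
        · rw [if_neg ha, if_neg ha, map_zero]
      · rw [Fin.addCases_right, Fin.addCases_right, map_neg, map_mul, eval_C, map_pow, eval_X]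
  exact Ideal.mem_radical_iff.1 hI

end Pool.Agent.H54W
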