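import Pool.Agent.Lib.H80W.D0
import Pool.Agent.Lib.H53V.ER8B

set_option autoImplicit false

/-!
H54W: regularity of the special forms.
-/

open MvPolynomial

namespace Pool.Agent.H54W

open Pool.Agent.H89T Pool.Agent.H67T Pool.Agent.H53U Pool.Agent.H53V

section Gen

theorem w2_mapC {A : Type*} [CommRing A] (𝔟 : Ideal A) (x : Polynomial A) :
    x ∈ 𝔟.map Polynomial.C ↔ Polynomial.map (Ideal.Quotient.mk 𝔟) x = 0 := by
  rw [Ideal.mem_map_C_iff]
  constructor
  · intro h
    ext i
    rw [Polynomial.coeff_map, Polynomial.coeff_zero, Ideal.Quotient.eq_zero_iff_mem]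
    exact h i
  · intro h i
    have h1 := congrArg (fun p => Polynomial.coeff p i) h
    simp only [Polynomial.coeff_map, Polynomial.coeff_zero] at h1
    rwa [Ideal.Quotient.eq_zero_iff_mem] at h1

theorem w2_monic {A : Type*} [CommRing A] (𝔟 : Ideal A) {G : Polynomial A} (hG : G.Monic)
    {x : Polynomial A} (hx : G * x ∈ 𝔟.map Polynomial.C) : x ∈ 𝔟.map Polynomial.C := by
  rw [w2_mapC, Polynomial.map_mul] at hx
  rw [w2_mapC]
  exact (hG.map (Ideal.Quotient.mk 𝔟)).isRegular.left (by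
    show Polynomial.map _ G * _ = Polynomial.map _ G * 0
    rw [hx, mul_zero])

theorem w2_step {A : Type*} [CommRing A] (𝔟 : Ideal A) {G : Polynomial A} (hG : G.Monic) {g : A}
    (hg : ∀ a, g * a ∈ 𝔟 → a ∈ 𝔟) {x : Polynomial A}
    (hx : Polynomial.C g * x ∈ 𝔟.map Polynomial.C ⊔ Ideal.span {G}) :
    x ∈ 𝔟.map Polynomial.C ⊔ Ideal.span {G} := by
  obtain ⟨b, hb, y', hy', hxy⟩ := Submodule.mem_sup.1 hx
  obtain ⟨y, rfl⟩ := Ideal.mem_span_singleton'.1 hy'
  have h1 := Polynomial.modByMonic_add_div x G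
  -- the product of g with the remainder
  have h2 : Polynomial.map (Ideal.Quotient.mk 𝔟) (Polynomial.C g * (x %ₘ G)) =
      Polynomial.map (Ideal.Quotient.mk 𝔟) G *
        Polynomial.map (Ideal.Quotient.mk 𝔟) (y - Polynomial.C g * (x /ₘ G)) := by
    have h3 : Polynomial.C g * (x %ₘ G) = b + G * (y - Polynomial.C g * (x /ₘ G)) := by
      have h4 : Polynomial.C g * (x %ₘ G) = Polynomial.C g * x - Polynomial.C g * (G * (x /ₘ G)) := by
        conv_rhs =>
          enter [1]
          rw [← h1]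
        ring
      rw [h4, ← hxy]
      ring
    rw [h3, Polynomial.map_add, (w2_mapC 𝔟 b).1 hb, zero_add, Polynomial.map_mul]
  have hGm := hG.map (Ideal.Quotient.mk 𝔟)
  have h5 : Polynomial.map (Ideal.Quotient.mk 𝔟) (Polynomial.C g * (x %ₘ G)) = 0 := by
    rcases subsingleton_or_nontrivial (A ⧸ 𝔟) with hs | hs
    · exact Subsingleton.elim _ _
    · by_contra hne
      have hy0 : Polynomial.map (Ideal.Quotient.mk 𝔟) (y - Polynomial.C g * (x /ₘ G)) ≠ 0 := by
        intro h
        rw [h, mul_zero] at h2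
        exact hne h2
      have hA : Nontrivial A := (Ideal.Quotient.mk 𝔟).domain_nontrivial
      have hdeg := hGm.degree_mul_comm (Polynomial.map (Ideal.Quotient.mk 𝔟) (y - Polynomial.C g * (x /ₘ G)))
      have h6 : (Polynomial.map (Ideal.Quotient.mk 𝔟) G *
        Polynomial.map (Ideal.Quotient.mk 𝔟) (y - Polynomial.C g * (x /ₘ G))).degree =
          (Polynomial.map (Ideal.Quotient.mk 𝔟) G).degree +
          (Polynomial.map (Ideal.Quotient.mk 𝔟) (y - Polynomial.C g * (x /ₘ G))).degree := by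
        rw [hdeg, hGm.degree_mul, add_comm]
      have h7 : (Polynomial.map (Ideal.Quotient.mk 𝔟) (Polynomial.C g * (x %ₘ G))).degree <
          (Polynomial.map (Ideal.Quotient.mk 𝔟) G).degree := by
        have h8 : (Polynomial.map (Ideal.Quotient.mk 𝔟) G).degree = G.degree :=
          hG.degree_map _
        rw [h8]
        refine lt_of_le_of_lt Polynomial.degree_map_le ?_
        refine lt_of_le_of_lt ?_ (Polynomial.degree_modByMonic_lt x hG)
        refine le_trans (Polynomial.degree_mul_le _ _) ?_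
        refine le_trans (add_le_add_left Polynomial.degree_C_le _) ?_
        rw [zero_add]
      rw [h2, h6] at h7
      have h9 : (0 : WithBot ℕ) ≤ (Polynomial.map (Ideal.Quotient.mk 𝔟) (y - Polynomial.C g * (x /ₘ G))).degree :=
        Polynomial.zero_le_degree_iff.2 hy0
      exact absurd h7 (not_lt.2 (le_add_of_nonneg_right h9))
  have h6 : x %ₘ G ∈ 𝔟.map Polynomial.C := by
    rw [← w2_mapC, Ideal.mem_map_C_iff] at h5
    rw [Ideal.mem_map_C_iff]
    intro i
    have h7 := h5 i
    rw [Polynomial.coeff_C_mul] at h7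
    exact hg _ h7
  rw [← h1]
  exact Ideal.add_mem _ (Ideal.mem_sup_left h6)
    (Ideal.mem_sup_right (Ideal.mul_mem_right _ _ (Ideal.mem_span_singleton_self G)))

variable {σ : Type*} [DecidableEq σ]

/-- `v` is the distinguished variable. -/
noncomputable def psi (v : σ) : MvPolynomial σ ℂ ≃ₐ[ℂ] Polynomial (MvPolynomial {b // b ≠ v} ℂ) :=
  (renameEquiv ℂ (Equiv.optionSubtypeNe v).symm).trans (optionEquivLeft ℂ _)

theorem psi_v (v : σ) : psi v (X v) = Polynomial.X := by
  unfold psi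
  rw [AlgEquiv.trans_apply, renameEquiv_apply, rename_X, Equiv.optionSubtypeNe_symm_self, optionEquivLeft_X_none]

theorem psi_ne {v b : σ} (h : b ≠ v) : psi v (X b) = Polynomial.C (X ⟨b, h⟩) := by
  unfold psi
  rw [AlgEquiv.trans_apply, renameEquiv_apply, rename_X, Equiv.optionSubtypeNe_symm_of_ne h, optionEquivLeft_X_some]

theorem psi_rename (v : σ) (f : MvPolynomial {b // b ≠ v} ℂ) :
    psi v (rename Subtype.val f) = Polynomial.C f := by
  induction f using MvPolynomial.induction_on with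
  | C a =>
    rw [rename_C, ← algebraMap_eq, AlgEquiv.commutes]
    rfl
  | add p q hp hq => rw [map_add, map_add, hp, hq, map_add]
  | mul_X p i hp => rw [map_mul, map_mul, hp, rename_X, psi_ne i.2, map_mul]

/-- `psi` as a ring homomorphism. -/
noncomputable def psR (v : σ) : MvPolynomial σ ℂ →+* Polynomial (MvPolynomial {b // b ≠ v} ℂ) :=
  ((psi v).toRingEquiv : MvPolynomial σ ℂ ≃+* Polynomial (MvPolynomial {b // b ≠ v} ℂ))

theorem psR_mem (v : σ) (I : Ideal (MvPolynomial σ ℂ)) (f : MvPolynomial σ ℂ) :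
    psi v f ∈ I.map (psR v) ↔ f ∈ I :=
  er8_equiv (psi v).toRingEquiv I f

theorem psR_map (v : σ) (S : Set (MvPolynomial σ ℂ))
    (hS : ∀ f ∈ S, ∃ f' : MvPolynomial {b // b ≠ v} ℂ, f = rename Subtype.val f') :
    (Ideal.span S).map (psR v) =
      (Ideal.span {f' : MvPolynomial {b // b ≠ v} ℂ | rename Subtype.val f' ∈ S}).map Polynomial.C := by
  rw [Ideal.map_span, Ideal.map_span]
  congr 1
  ext y
  constructor
  · rintro ⟨f, hf, rfl⟩
    obtain ⟨f', rfl⟩ := hS f hf
    exact ⟨f', hf, (psi_rename v f').symm⟩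
  · rintro ⟨f', hf', rfl⟩
    exact ⟨_, hf', psi_rename v f'⟩

theorem w2_reg (v : σ) (S : Set (MvPolynomial σ ℂ))
    (hS : ∀ f ∈ S, ∃ f' : MvPolynomial {b // b ≠ v} ℂ, f = rename Subtype.val f')
    {G : MvPolynomial σ ℂ} (hG : (psi v G).Monic) {x : MvPolynomial σ ℂ}
    (hx : G * x ∈ Ideal.span S) : x ∈ Ideal.span S := by
  rw [← psR_mem v, psR_map v S hS] at hx ⊢
  rw [map_mul] at hx
  exact w2_monic _ hG hx

theorem w2_reg2 (v : σ) (S : Set (MvPolynomial σ ℂ))
    (hS : ∀ f ∈ S, ∃ f' : MvPolynomial {b // b ≠ v} ℂ, f = rename Subtype.val f')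
    {G : MvPolynomial σ ℂ} (hG : (psi v G).Monic) {g : MvPolynomial {b // b ≠ v} ℂ}
    (hg : ∀ a, rename Subtype.val g * a ∈ Ideal.span S → a ∈ Ideal.span S) {x : MvPolynomial σ ℂ}
    (hx : rename Subtype.val g * x ∈ Ideal.span (S ∪ {G})) : x ∈ Ideal.span (S ∪ {G}) := by
  have h1 : (Ideal.span (S ∪ {G})).map (psR v) =
      (Ideal.span {f' : MvPolynomial {b // b ≠ v} ℂ | rename Subtype.val f' ∈ S}).map Polynomial.C ⊔
        Ideal.span {psi v G} := by
    rw [Ideal.span_union, Ideal.map_sup, psR_map v S hS, Ideal.map_span (psR v), Set.image_singleton]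
    rfl
  rw [← psR_mem v, h1] at hx ⊢
  rw [map_mul, psi_rename] at hx
  refine w2_step _ hG (fun a ha => ?_) hx
  have h2 := hg (rename Subtype.val a) (by
    rw [← psR_mem v, psR_map v S hS, ← map_mul, psi_rename]
    exact Ideal.mem_map_of_mem _ ha)
  rw [← psR_mem v, psR_map v S hS, psi_rename, Ideal.mem_map_C_iff] at h2
  have h3 := h2 0
  rwa [Polynomial.coeff_C_zero] at h3

end Gen

end Pool.Agent.H54W
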