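import Pool.Agent.Lib.H54W.W2B

set_option autoImplicit false

/-!
H54W: the linear equations of the special model are regular up to torsion at the origin.
-/

open MvPolynomial

namespace Pool.Agent.H54W

open Pool.Agent.H89T Pool.Agent.H67T Pool.Agent.H53U Pool.Agent.H53V

variable {n c k : ℕ} {d : Fin c → ℕ} {α : Fin c → Option (Fin n) → ℂ}

theorem w3_F (j : Fin c) : er8_s (n + c) k ℂ (H80W.F0s n c k d α j) = C (H80W.Fx n c d α j) := by
  unfold H80W.F0s
  rw [er8_s_apply, er8_rename]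

theorem w3_U (q : Fin c × Fin k) : er8_s (n + c) k ℂ (H80W.U0s n c k d α q) =
    ∑ b, C (C (d q.1 : ℂ) * H80W.Jx n c d α q.1 b) * X (b, q.2) := by
  have h1 : er8_s (n + c) k ℂ (C (d q.1 : ℂ)) = C (C (d q.1 : ℂ)) := by
    have h2 := er8_rename (N := n + c) (k := k) (C (d q.1 : ℂ))
    rwa [rename_C] at h2
  have h3 : ∀ b : Fin (n + c), er8_s (n + c) k ℂ (rename xv (H80W.Jx n c d α q.1 b) *
      X (some (b, q.2.succ))) = C (H80W.Jx n c d α q.1 b) * X (b, q.2) := fun b => by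
    rw [map_mul, er8_s_apply, er8_s_apply, spl_jet, er8_rename]
  unfold H80W.U0s
  rw [map_mul, map_sum, Finset.sum_congr rfl fun b _ => h3 b, h1, Finset.mul_sum]
  refine Finset.sum_congr rfl fun b _ => ?_
  rw [C_mul, mul_assoc]

/-- The images of the linear equations. -/
noncomputable def w3_u (n c k : ℕ) (d : Fin c → ℕ) (α : Fin c → Option (Fin n) → ℂ)
    (p : ↥(Finset.univ : Finset (Fin c)) × Fin k) :
    MvPolynomial (Fin (n + c) × Fin k) (MvPolynomial (Option (Fin (n + c))) ℂ) :=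
  er8_s (n + c) k ℂ (H80W.U0s n c k d α (p.1.1, p.2))

theorem w3_lev (p : ↥(Finset.univ : Finset (Fin c)) × Fin k) :
    LevZ (p.2 : ℕ) (w3_u n c k d α p -
      ∑ b, C (C (d p.1.1 : ℂ) * H80W.Jx n c d α p.1.1 b) * X (b, p.2)) := by
  unfold w3_u
  rw [w3_U, sub_self]
  intro ν hν
  rw [support_zero] at hν
  exact absurd hν (Finset.notMem_empty _)

theorem w3_map (S : Set (Fin c × Fin k)) (S' : Set (↥(Finset.univ : Finset (Fin c)) × Fin k))
    (hS : (fun p : ↥(Finset.univ : Finset (Fin c)) × Fin k =>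
      ((p.1.1, p.2) : Fin c × Fin k)) '' S' = S) :
    (Ideal.span (Set.range (H80W.F0s n c k d α) ∪ H80W.U0s n c k d α '' S)).map (er8_s (n + c) k ℂ) =
      Ideal.span (C '' ((Ideal.span (Set.range (H80W.Fx n c d α)) :
        Ideal (MvPolynomial (Option (Fin (n + c))) ℂ)) : Set _) ∪ w3_u n c k d α '' S') := by
  have h1 : er8_s (n + c) k ℂ '' (H80W.U0s n c k d α '' S) = w3_u n c k d α '' S' := by
    rw [← hS, Set.image_image, Set.image_image]
    rfl
  have h2 : er8_s (n + c) k ℂ '' Set.range (H80W.F0s n c k d α) =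
      C '' Set.range (H80W.Fx n c d α) := by
    rw [← Set.range_comp, ← Set.range_comp]
    exact congrArg Set.range (funext fun j => w3_F j)
  rw [Ideal.map_span, Set.image_union, h1, h2, Ideal.span_union, Ideal.span_union]
  congr 1
  exact (Ideal.map_span (C : MvPolynomial (Option (Fin (n + c))) ℂ →+*
    MvPolynomial (Fin (n + c) × Fin k) (MvPolynomial (Option (Fin (n + c))) ℂ)) _).symm

/-- The determinants. -/
noncomputable def w3_De (n c : ℕ) (d : Fin c → ℕ) (α : Fin c → Option (Fin n) → ℂ)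
    (β : ↥(Finset.univ : Finset (Fin c)) → Fin (n + c)) : MvPolynomial (Option (Fin (n + c))) ℂ :=
  (Matrix.of fun j r : ↥(Finset.univ : Finset (Fin c)) =>
    (fun (j : ↥(Finset.univ : Finset (Fin c))) (b : Fin (n + c)) =>
      C (d j.1 : ℂ) * H80W.Jx n c d α j.1 b) j (β r)).det

theorem w3_De_eq (β : Fin c → Fin (n + c)) :
    w3_De n c d α (fun j => β j.1) = (∏ j, C (d j : ℂ)) *
      (Matrix.of fun j r : Fin c => H80W.Jx n c d α j (β r)).det := by
  rw [← Matrix.det_mul_column]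
  unfold w3_De
  obtain ⟨e, he⟩ : ∃ e : ↥(Finset.univ : Finset (Fin c)) ≃ Fin c, ∀ j, e j = j.1 :=
    ⟨Equiv.subtypeUnivEquiv Finset.mem_univ, fun j => rfl⟩
  rw [← Matrix.det_submatrix_equiv_self e]
  congr 1
  ext1 j r
  show C (d j.1 : ℂ) * H80W.Jx n c d α j.1 (β r.1) = C (d (e j) : ℂ) * H80W.Jx n c d α (e j) (β (e r))
  rw [he, he]

theorem w3_comb (hd : ∀ j, 1 ≤ d j) (hg : H80W.GoodA n c d α) {V : Type*}
    (I' : Ideal (MvPolynomial V (MvPolynomial (Option (Fin (n + c))) ℂ)))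
    (hI : ∀ j, C (H80W.Fx n c d α j) ∈ I')
    (f : MvPolynomial V (MvPolynomial (Option (Fin (n + c))) ℂ))
    (h : ∀ β : ↥(Finset.univ : Finset (Fin c)) → Fin (n + c),
      ∃ e : ℕ, C (w3_De n c d α β ^ e) * f ∈ I')
    (b : Option (Fin (n + c))) :
    ∃ r : ℕ, C (X b) ^ r * f ∈ I' := by
  obtain ⟨𝔠, h𝔠⟩ : ∃ 𝔠 : Ideal (MvPolynomial (Option (Fin (n + c))) ℂ),
      ∀ g, g ∈ 𝔠 ↔ C g * f ∈ I' := by
    refine ⟨{ carrier := {g | C g * f ∈ I'}, add_mem' := ?_, zero_mem' := ?_, smul_mem' := ?_ },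
      fun g => Iff.rfl⟩
    · intro a b ha hb
      have ha' : C a * f ∈ I' := ha
      have hb' : C b * f ∈ I' := hb
      change C (a + b) * f ∈ I'
      rw [C_add, add_mul]
      exact I'.add_mem ha' hb'
    · change C 0 * f ∈ I'
      rw [C_0, zero_mul]
      exact I'.zero_mem
    · intro c x hx
      have hx' : C x * f ∈ I' := hx
      change C (c * x) * f ∈ I'
      rw [C_mul, mul_assoc]
      exact I'.mul_mem_left _ hx'
  obtain ⟨r, hr⟩ := hg.sm' b
  have hle : Ideal.span (Set.range (H80W.Fx n c d α) ∪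
      Set.range fun β : Fin c → Fin (n + c) =>
        (Matrix.of fun j r : Fin c => H80W.Jx n c d α j (β r)).det) ≤ 𝔠.radical := by
    rw [Ideal.span_le]
    rintro _ (⟨j, rfl⟩ | ⟨β, rfl⟩)
    · refine Ideal.le_radical ?_
      rw [h𝔠]
      exact I'.mul_mem_right _ (hI j)
    · obtain ⟨e, he⟩ := h (fun j => β j.1)
      rw [← h𝔠, w3_De_eq] at he
      refine ⟨e, ?_⟩
      have h1 : (Matrix.of fun j r : Fin c => H80W.Jx n c d α j (β r)).det ^ e =
          C ((∏ j, (d j : ℂ))⁻¹ ^ e) * ((∏ j, C (d j : ℂ)) *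
            (Matrix.of fun j r : Fin c => H80W.Jx n c d α j (β r)).det) ^ e := by
        have h2 : (∏ j, (d j : ℂ)) ≠ 0 := Finset.prod_ne_zero_iff.2 fun j _ => by
          exact_mod_cast (show d j ≠ 0 by have := hd j; omega)
        rw [mul_pow, ← mul_assoc, ← map_prod, ← C_pow, ← C_mul, ← mul_pow, inv_mul_cancel₀ h2,
          one_pow, C_1, one_mul]
      show _ ^ e ∈ 𝔠
      rw [h1]
      exact 𝔠.mul_mem_left _ he
  obtain ⟨s, hs⟩ := hle hr
  refine ⟨r * s, ?_⟩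
  rw [← pow_mul, h𝔠, C_pow] at hs
  exact hs

theorem TR_U0s (hd : ∀ j, 1 ≤ d j) (hg : H80W.GoodA n c d α) (T : Finset (Fin c × Fin k))
    (q : Fin c × Fin k) (hqT : q ∉ T) :
    TR (Ideal.span (Set.range (H80W.F0s n c k d α) ∪ H80W.U0s n c k d α '' (T : Set (Fin c × Fin k))))
      (H80W.U0s n c k d α q) := by
  intro f hf b
  obtain ⟨S', hS'⟩ : ∃ S' : Set (↥(Finset.univ : Finset (Fin c)) × Fin k),
      S' = {p | ((p.1.1, p.2) : Fin c × Fin k) ∈ T} := ⟨_, rfl⟩
  have hS : (fun p : ↥(Finset.univ : Finset (Fin c)) × Fin k =>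
      ((p.1.1, p.2) : Fin c × Fin k)) '' S' = (T : Set (Fin c × Fin k)) := by
    rw [hS']
    ext ⟨j, i⟩
    constructor
    · rintro ⟨p, hp, h⟩
      rw [← h]
      exact hp
    · intro h
      exact ⟨(⟨j, Finset.mem_univ _⟩, i), h, rfl⟩
  have hmap := w3_map (n := n) (d := d) (α := α) (T : Set (Fin c × Fin k)) S' hS
  have h1 := Ideal.mem_map_of_mem (er8_s (n + c) k ℂ) hf
  rw [hmap, map_mul] at h1
  have hq' : ((⟨q.1, Finset.mem_univ _⟩, q.2) : ↥(Finset.univ : Finset (Fin c)) × Fin k) ∉ S' := by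
    rw [hS']
    exact hqT
  have hIF : ∀ j, C (H80W.Fx n c d α j) ∈ Ideal.span (C '' ((Ideal.span (Set.range (H80W.Fx n c d α)) :
        Ideal (MvPolynomial (Option (Fin (n + c))) ℂ)) : Set _) ∪ w3_u n c k d α '' S') :=
    fun j => Ideal.subset_span (Or.inl ⟨_, Ideal.subset_span ⟨j, rfl⟩, rfl⟩)
  obtain ⟨r, hr⟩ := w3_comb hd hg _ hIF (er8_s (n + c) k ℂ f) (fun β =>
    L2 (Ideal.span (Set.range (H80W.Fx n c d α))) Finset.univ
      (fun j b => C (d j.1 : ℂ) * H80W.Jx n c d α j.1 b) (w3_u n c k d α) w3_lev β hq' h1) b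
  refine ⟨r, ?_⟩
  rw [← er8_mem, hmap, map_mul, map_pow, er8_s_apply (X (xv b)), spl_xv]
  exact hr

theorem TR_x (hd : ∀ j, 1 ≤ d j) (hg : H80W.GoodA n c d α) (b : Option (Fin (n + c))) :
    TR (H80W.Isp n c k d α) (X (xv b)) := by
  intro f hf b'
  have hS : (fun p : ↥(Finset.univ : Finset (Fin c)) × Fin k =>
      ((p.1.1, p.2) : Fin c × Fin k)) '' Set.univ =
        {q : Fin c × Fin k | q.1 ∈ (Finset.univ : Finset (Fin c))} := by
    ext ⟨j, i⟩
    constructor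
    · intro _
      exact Finset.mem_univ j
    · intro h
      exact ⟨(⟨j, Finset.mem_univ j⟩, i), Set.mem_univ _, rfl⟩
  have hmap := w3_map (n := n) (d := d) (α := α)
    {q : Fin c × Fin k | q.1 ∈ (Finset.univ : Finset (Fin c))} Set.univ hS
  rw [Set.image_univ] at hmap
  have h1 := Ideal.mem_map_of_mem (er8_s (n + c) k ℂ) hf
  unfold H80W.Isp at h1 ⊢
  rw [hmap, map_mul, er8_s_apply (X (xv b)), spl_xv] at h1
  have hIF : ∀ j, C (H80W.Fx n c d α j) ∈ Ideal.span (C '' ((Ideal.span (Set.range (H80W.Fx n c d α)) :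
        Ideal (MvPolynomial (Option (Fin (n + c))) ℂ)) : Set _) ∪ Set.range (w3_u n c k d α)) :=
    fun j => Ideal.subset_span (Or.inl ⟨_, Ideal.subset_span ⟨j, rfl⟩, rfl⟩)
  obtain ⟨r, hr⟩ := w3_comb hd hg _ hIF (er8_s (n + c) k ℂ f) (fun β => by
    obtain ⟨e, he⟩ := L4 (Ideal.span (Set.range (H80W.Fx n c d α))) Finset.univ
      (fun j b => C (d j.1 : ℂ) * H80W.Jx n c d α j.1 b) (w3_u n c k d α) w3_lev β
      (δ := w3_De n c d α β) (dvd_refl _)
      (g := X b) (fun x hx => ⟨0, by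
        rw [pow_zero, one_mul]
        exact X_reg hd (fun j => hg.ne j none) b hx⟩) h1
    exact ⟨e, he⟩) b'
  refine ⟨r, ?_⟩
  rw [← er8_mem, hmap, map_mul, map_pow, er8_s_apply (X (xv b')), spl_xv]
  exact hr

end Pool.Agent.H54W
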