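import Pool.Agent.Lib.H54W.W3
import Pool.Agent.Lib.H53V.ED5
import Pool.Agent.Lib.H53V.EHF

set_option autoImplicit false

/-!
H54W: bidegrees of the generators and equality of the Hilbert functions in large degree.
-/

open MvPolynomial

namespace Pool.Agent.H54W

open Pool.Agent.H89T Pool.Agent.H67T Pool.Agent.H53U Pool.Agent.H53V

variable {n c k : ℕ} {d : Fin c → ℕ} {α : Fin c → Option (Fin n) → ℂ}

theorem w5_Fx (j : Fin c) : (H80W.Fx n c d α j).IsHomogeneous (d j) := by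
  unfold H80W.Fx
  refine IsHomogeneous.add (isHomogeneous_X_pow _ _) (IsHomogeneous.sum _ _ _ fun b _ => ?_)
  have h := (isHomogeneous_C (Option (Fin (n + c))) (α j b)).mul
    (isHomogeneous_X_pow (R := ℂ) (H80W.vb n c b) (d j))
  rwa [zero_add] at h

theorem w5_Jx (j : Fin c) (b : Fin (n + c)) : (H80W.Jx n c d α j b).IsHomogeneous (d j - 1) := by
  unfold H80W.Jx
  refine Fin.addCases (fun i => ?_) (fun j' => ?_) b
  · rw [Fin.addCases_left]
    have h := (isHomogeneous_C (Option (Fin (n + c))) (α j (some i))).mul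
      (isHomogeneous_X_pow (R := ℂ) (H80W.vb n c (some i)) (d j - 1))
    rwa [zero_add] at h
  · rw [Fin.addCases_right]
    by_cases h : j' = j
    · rw [if_pos h]
      exact isHomogeneous_X_pow _ _
    · rw [if_neg h]
      exact isHomogeneous_zero _ _ _

theorem F0s_bi (j : Fin c) : BiH (d j) 0 (H80W.F0s n c k d α j) := by
  unfold H80W.F0s
  exact ed5_rename (w5_Fx j)

theorem U0s_bi (q : Fin c × Fin k) :
    BiH (d q.1 - 1) ((q.2 : ℕ) + 1) (H80W.U0s n c k d α q) := by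
  unfold H80W.U0s
  have h1 : BiH (d q.1 - 1) ((q.2 : ℕ) + 1) (∑ b : Fin (n + c), rename xv (H80W.Jx n c d α q.1 b) *
      X (some (b, q.2.succ)) : MvPolynomial (HV (n + c) k) ℂ) := by
    refine IsWeightedHomogeneous.sum _ _ _ fun b _ => ?_
    have h2 : BiH (d q.1 - 1) 0 (rename (xv : Option (Fin (n + c)) → HV (n + c) k)
        (H80W.Jx n c d α q.1 b)) := ed5_rename (w5_Jx q.1 b)
    have h3 : BiH 0 ((q.2 : ℕ) + 1) (X (some (b, q.2.succ)) : MvPolynomial (HV (n + c) k) ℂ) := by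
      have h4 := isWeightedHomogeneous_X ℂ (hw : HV (n + c) k → ℕ × ℕ) (some (b, q.2.succ))
      have h5 : (hw (some (b, q.2.succ) : HV (n + c) k) : ℕ × ℕ) = (0, (q.2 : ℕ) + 1) := by
        unfold hw
        simp [Fin.succ_ne_zero]
      rw [h5] at h4
      exact h4
    have h5 := IsWeightedHomogeneous.mul h2 h3
    have h6 : ((d q.1 - 1, 0) : ℕ × ℕ) + (0, (q.2 : ℕ) + 1) = (d q.1 - 1, (q.2 : ℕ) + 1) := by
      simp
    rw [h6] at h5
    exact h5
  have h2 := IsWeightedHomogeneous.mul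
    (isWeightedHomogeneous_C (hw : HV (n + c) k → ℕ × ℕ) (d q.1 : ℂ)) h1
  rw [zero_add] at h2
  exact h2

theorem Isp_hom : HomI (H80W.Isp n c k d α) := by
  unfold H80W.Isp
  apply eha_homI_span
  rintro _ (⟨j, rfl⟩ | ⟨q, _, rfl⟩)
  · exact ⟨_, _, F0s_bi j⟩
  · exact ⟨_, _, U0s_bi q⟩

/-- The Hilbert functions are equal in large degree. -/
theorem hf_eq (hd : ∀ j, 1 ≤ d j) (hg : H80W.GoodA n c d α) (k : ℕ) :
    ∃ A₁ : ℕ, ∀ A ≥ A₁, ∀ m, hf (H80W.Ige n c k d) A m = hf (H80W.Isp n c k d α) A m := by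
  obtain ⟨A₁, h1⟩ := ehf_main (n := n) (c := c) (d := d) (H80W.F0s n c k d α) (H80W.U0s n c k d α)
    ((Finset.univ : Finset (Fin c)) ×ˢ (Finset.univ : Finset (Fin k))) F0s_bi U0s_bi (TR_F0s hd)
    (fun T _ q _ hqT => TR_U0s hd hg T q hqT)
    ((Finset.univ : Finset (Fin c)) ×ˢ (Finset.univ : Finset (Fin k))) (Finset.Subset.refl _)
  obtain ⟨A₂, h2⟩ := ehf_main (n := n) (c := c) (d := d)
    (FhK k (gK (n + c) d)) (UhK k (gK (n + c) d))
    ((Finset.univ : Finset (Fin c)) ×ˢ (Finset.univ : Finset (Fin k))) (FhK_bi _) (UhK_bi _)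
    (fun j => TR_F j) (fun T hT q hq hqT => TR_U Finset.univ T hT q hq hqT)
    ((Finset.univ : Finset (Fin c)) ×ˢ (Finset.univ : Finset (Fin k))) (Finset.Subset.refl _)
  refine ⟨max A₁ A₂, fun A hA m => ?_⟩
  have h3 := h1 A (le_trans (le_max_left _ _) hA) m
  have h4 := h2 A (le_trans (le_max_right _ _) hA) m
  have hset : {q : Fin c × Fin k | q.1 ∈ (Finset.univ : Finset (Fin c))} =
      (((Finset.univ : Finset (Fin c)) ×ˢ (Finset.univ : Finset (Fin k)) :
        Finset (Fin c × Fin k)) : Set (Fin c × Fin k)) := by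
    ext q
    constructor
    · intro _
      exact Finset.mem_coe.2 (Finset.mem_product.2 ⟨Finset.mem_univ _, Finset.mem_univ _⟩)
    · intro _
      exact Finset.mem_univ q.1
  unfold H80W.Ige H80W.Isp
  rw [hset]
  exact h4.trans h3.symm

end Pool.Agent.H54W
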